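import Pool.Agent.Helper41.Cluster4.Goals

/-! At most 48 unit vectors at mutual distance at least one in dimension four. -/

namespace Pool.Agent.Helper3.Cluster4

open Module MeasureTheory Metric Set Pool.Agent.Helper41.Cluster4
open scoped ENNReal NNReal RealInnerProductSpace

variable {E : Type*} [NormedAddCommGroup E] [InnerProductSpace ℝ E]

/-- the inner half of the ball about `x` -/
def Hb (x : E) : Set E := ball x (1 / 2) ∩ {v | ⟪v - x, x⟫ ≤ 0}

theorem hb_sub {x : E} (hx : ‖x‖ = 1) : Hb x ⊆ ball (0 : E) (Real.sqrt 5 / 2) := by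
  rintro v ⟨h1, h2⟩
  rw [mem_ball, dist_eq_norm] at h1
  rw [mem_ball, dist_zero_right]
  have h3 : ‖v‖ ^ 2 = ‖v - x‖ ^ 2 + 2 * ⟪v - x, x⟫ + ‖x‖ ^ 2 := by
    have := norm_add_sq_real (v - x) x
    rwa [sub_add_cancel] at this
  have h4 : ⟪v - x, x⟫ ≤ 0 := h2
  have h5 : ‖v - x‖ ^ 2 < (1 / 2) ^ 2 := pow_lt_pow_left₀ h1 (norm_nonneg _) two_ne_zero
  have h6 : ‖v‖ ^ 2 < 5 / 4 := by
    rw [h3, hx]
    norm_num at h5 ⊢
    linarith
  have h7 : (Real.sqrt 5 / 2) ^ 2 = 5 / 4 := by
    rw [div_pow, Real.sq_sqrt (by norm_num)]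
    norm_num
  rw [← h7] at h6
  exact lt_of_pow_lt_pow_left₀ 2 (by positivity) h6

theorem hb_meas [MeasurableSpace E] [BorelSpace E] (x : E) : MeasurableSet (Hb x) := by
  refine measurableSet_ball.inter (IsClosed.measurableSet ?_)
  exact isClosed_le (by fun_prop) continuous_const

theorem halfBall [FiniteDimensional ℝ E] : HalfBall E := by
  intro hd N hN
  borelize E
  let μ : Measure E := Measure.addHaar
  set s := hN.fin.toFinset with hs
  have hmem : ∀ x, x ∈ s ↔ x ∈ N := fun x => hN.fin.mem_toFinset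
  have hcard : N.ncard = s.card := Set.ncard_eq_toFinset_card N hN.fin
  rw [hcard]
  have hball : ∀ x : E, μ (ball x (1 / 2)) = ENNReal.ofReal (1 / 16) * μ (ball 0 1) := by
    intro x
    rw [μ.addHaar_ball_of_pos x (by norm_num : (0 : ℝ) < 1 / 2), hd]
    norm_num
  have hhalf : ∀ x : E, ENNReal.ofReal (1 / 16) * μ (ball 0 1) ≤ 2 * μ (Hb x) := by
    intro x
    rw [← hball x, two_mul]
    have h1 : ball x (1 / 2) ⊆ Hb x ∪ (fun v => (2 : ℝ) • x - v) ⁻¹' (Hb x) := by
      intro v hv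
      by_cases h : ⟪v - x, x⟫ ≤ 0
      · exact Or.inl ⟨hv, h⟩
      · right
        have h2 : (2 : ℝ) • x - v - x = -(v - x) := by
          rw [two_smul]
          abel
        refine ⟨?_, ?_⟩
        · rw [mem_ball, dist_eq_norm, h2, norm_neg, ← dist_eq_norm]
          exact hv
        · show ⟪(2 : ℝ) • x - v - x, x⟫ ≤ 0
          rw [h2, inner_neg_left]
          linarith
    have h2 : μ ((fun v => (2 : ℝ) • x - v) ⁻¹' (Hb x)) = μ (Hb x) :=
      (Measure.measurePreserving_sub_left μ ((2 : ℝ) • x)).measure_preimage (hb_meas x).nullMeasurableSet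
    calc μ (ball x (1 / 2)) ≤ μ (Hb x ∪ (fun v => (2 : ℝ) • x - v) ⁻¹' (Hb x)) :=
          measure_mono h1
      _ ≤ μ (Hb x) + μ ((fun v => (2 : ℝ) • x - v) ⁻¹' (Hb x)) := measure_union_le _ _
      _ = μ (Hb x) + μ (Hb x) := by rw [h2]
  have hdis : (s : Set E).Pairwise (Function.onFun Disjoint Hb) := by
    intro x hx y hy hxy
    have hx' := (hmem x).1 hx
    have hy' := (hmem y).1 hy
    refine Disjoint.mono inter_subset_left inter_subset_left ?_
    apply ball_disjoint_ball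
    rw [dist_eq_norm]
    have h1 := hN.sep x hx' y hy' hxy
    have h2 := norm_sub_sq_real x y
    rw [hN.norm x hx', hN.norm y hy'] at h2
    have h3 : 1 ≤ ‖x - y‖ ^ 2 := by
      rw [h2]
      linarith
    have h4 : 1 ≤ ‖x - y‖ := by
      by_contra h
      push Not at h
      have := pow_lt_one₀ (norm_nonneg (x - y)) h two_ne_zero
      linarith
    linarith
  have hdis0 : Disjoint (⋃ x ∈ s, Hb x) (ball (0 : E) (1 / 2)) := by
    rw [Set.disjoint_iUnion₂_left]
    intro x hx
    refine Disjoint.mono_left inter_subset_left ?_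
    apply ball_disjoint_ball
    rw [dist_zero_right, hN.norm x ((hmem x).1 hx)]
    norm_num
  have hsub : (⋃ x ∈ s, Hb x) ∪ ball (0 : E) (1 / 2) ⊆ ball (0 : E) (Real.sqrt 5 / 2) := by
    refine union_subset (iUnion₂_subset fun x hx => hb_sub (hN.norm x ((hmem x).1 hx))) ?_
    refine ball_subset_ball ?_
    have : 1 ≤ Real.sqrt 5 := by
      rw [Real.one_le_sqrt]
      norm_num
    linarith
  have hbig : μ (ball (0 : E) (Real.sqrt 5 / 2)) = ENNReal.ofReal (25 / 16) * μ (ball 0 1) := by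
    rw [μ.addHaar_ball_of_pos (0 : E) (by positivity), hd]
    congr 2
    have h5 : Real.sqrt 5 ^ 4 = 25 := by
      have h6 : Real.sqrt 5 ^ 2 = 5 := Real.sq_sqrt (by norm_num)
      calc Real.sqrt 5 ^ 4 = (Real.sqrt 5 ^ 2) ^ 2 := by ring
        _ = 25 := by rw [h6]; norm_num
    rw [div_pow, h5]
    norm_num
  have key : ((s.card : ℝ≥0∞) + 2) * ENNReal.ofReal (1 / 16) * μ (ball 0 1) ≤
      2 * ENNReal.ofReal (25 / 16) * μ (ball 0 1) := by
    calc ((s.card : ℝ≥0∞) + 2) * ENNReal.ofReal (1 / 16) * μ (ball 0 1)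
        = ∑ _x ∈ s, ENNReal.ofReal (1 / 16) * μ (ball 0 1) +
          2 * (ENNReal.ofReal (1 / 16) * μ (ball 0 1)) := by
          rw [Finset.sum_const, nsmul_eq_mul]
          ring
      _ ≤ ∑ x ∈ s, 2 * μ (Hb x) + 2 * μ (ball (0 : E) (1 / 2)) := by
          rw [hball 0]
          exact add_le_add (Finset.sum_le_sum fun x _ => hhalf x) le_rfl
      _ = 2 * μ ((⋃ x ∈ s, Hb x) ∪ ball (0 : E) (1 / 2)) := by
          rw [measure_union hdis0 measurableSet_ball,
            measure_biUnion_finset hdis fun x _ => hb_meas x, mul_add, Finset.mul_sum]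
      _ ≤ 2 * μ (ball (0 : E) (Real.sqrt 5 / 2)) := by
          gcongr
      _ = 2 * ENNReal.ofReal (25 / 16) * μ (ball 0 1) := by
          rw [hbig, mul_assoc]
  have J : ((s.card : ℝ≥0∞) + 2) * ENNReal.ofReal (1 / 16) ≤ 2 * ENNReal.ofReal (25 / 16) :=
    (ENNReal.mul_le_mul_iff_left (measure_ball_pos _ _ zero_lt_one).ne'
      measure_ball_lt_top.ne).1 key
  have K := ENNReal.toReal_mono (by finiteness) J
  rw [ENNReal.toReal_mul, ENNReal.toReal_mul, ENNReal.toReal_add (by finiteness) (by finiteness),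
    ENNReal.toReal_natCast, ENNReal.toReal_ofReal (by norm_num),
    ENNReal.toReal_ofReal (by norm_num)] at K
  have K2 : (s.card : ℝ) ≤ 48 := by
    norm_num at K
    linarith
  exact_mod_cast K2

end Pool.Agent.Helper3.Cluster4
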